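import Pool.Agent.Q48.RD.Joint4

/-!
# Primes in several disjoint short intervals `(x + s_i T, x + (s_i + 1) T]` at once

Let `g ≥ 2` be a base and `K` a large number of digits. For every `i < K` let `A i` be an arbitrary set of digits, such that the number
`|A 0| ⋯ |A (K - 1)|` of the integers `t < g ^ K` whose `i`-th digit belongs to `A i` for all `i < K` is at least `exp (- δ K) g ^ K`.
Let `N ≤ g ^ (E K)` be arbitrary. We consider the numbers `x = N + t` with these `t`: they form a set with only
`y ^ (1 - δ')` elements in an interval of length `y = g ^ K`, which may be an arbitrarily small power of `x`.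

Let `s_1, …, s_l ≥ 0` be different integers, `l ≥ 2` (for example `0, 1, …, l - 1`: adjacent intervals). Cramér's model predicts for the
numbers of primes in the disjoint short intervals `(x + s_i T, x + (s_i + 1) T]`, `i ≤ l`, that they behave like independent random
variables: the mean value over `x` of the product of their `k`-th powers should have the order of magnitude of the product of the mean
values, where one of these has the order of magnitude of `(T / K) ^ k` for `T ≥ K` and of `T / K` for `T ≤ K`. Here `T ≤ g ^ (E K)` is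
arbitrary, from bounded `T` to intervals of Cramér's length `T = c K ^ 2` and to powers of `x`. We prove, for all these sets of `x`,

(1) the upper bound of this order for the primes: in particular, for `T ≤ K` at most the predicted proportion `C (T / K) ^ l` of the
`x` have primes in all the `l` intervals at once;

(2) the exact order of magnitude for the almost primes;

(3) that for at least `κ min (1, T / K) ^ l` of all these `x` EVERY one of the `l` intervals contains at least
`κ max (1, T / K)` almost primes.
-/

set_option autoImplicit false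

namespace Pool.Agent.Results.MP_ff81b6_nt.DisjointWindows

open Filter Finset
open Pool.Agent.Q315.RD Pool.Agent.Q48.RD

/-- The number of primes `p` with `x < p ≤ x + T`. -/
def primesIn (x T : ℕ) : ℕ := ((Ioc x (x + T)).filter Nat.Prime).card

open Classical in
/-- The number of the integers in `(x, x + T]` with at most `r` prime factors, all larger than `y ^ (1 / r)`. -/
noncomputable def almostPrimesIn (y r x T : ℕ) : ℕ := ((Ioc x (x + T)).filter (AlmostPrime y r)).card

open Classical in
/-- The integers `t < g ^ K` whose `i`-th digit belongs to `A i` for all `i < K`. -/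
noncomputable def digitSet (g K : ℕ) (A : ℕ → Finset ℕ) : Finset ℕ := (range (g ^ K)).filter (HasDigits g K A)

/-- The predicted order of magnitude of the mean value of the `k`-th power for one interval: `T / K` for `T ≤ K` and `(T / K) ^ k`
for `T ≥ K`. -/
noncomputable def order (k T K : ℕ) : ℝ := min 1 ((T : ℝ) / K) * max 1 ((T : ℝ) / K) ^ k

/-- **Primes and almost primes in several disjoint short intervals at once.** -/
theorem result {l : ℕ} (hl : 2 ≤ l) (s : Fin l → ℕ) (hinj : Function.Injective s) (k : ℕ) (hk : 1 ≤ k) (E : ℕ) :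
    ∃ δ : ℝ, 0 < δ ∧ ∃ r₀ : ℕ, 2 ≤ r₀ ∧ ∀ r : ℕ, r₀ ≤ r → ∀ g : ℕ, 2 ≤ g → ∃ κ C : ℝ, ∃ T₀ : ℕ, 0 < κ ∧ 0 < C ∧
      ∀ᶠ K : ℕ in atTop, ∀ N T : ℕ, N ≤ g ^ (E * K) → 1 ≤ T → T ≤ g ^ (E * K) →
        ∀ A : ℕ → Finset ℕ, (∀ i < K, A i ⊆ range g) → (g : ℝ) ^ K ≤ Real.exp (δ * K) * choices K A →
        -- the primes
        ∑ t ∈ digitSet g K A, ∏ i, (primesIn (N + t + s i * T) T : ℝ) ^ k ≤ C * order k T K ^ l * choices K A ∧
        -- the almost primes
        ∑ t ∈ digitSet g K A, ∏ i, (almostPrimesIn (g ^ K) r (N + t + s i * T) T : ℝ) ^ k ≤ C * order k T K ^ l * choices K A ∧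
        (T₀ ≤ T →
          κ * order k T K ^ l * choices K A ≤ ∑ t ∈ digitSet g K A, ∏ i, (almostPrimesIn (g ^ K) r (N + t + s i * T) T : ℝ) ^ k ∧
          -- all the `l` intervals contain many almost primes at once
          κ * min 1 ((T : ℝ) / K) ^ l * choices K A ≤
            (((digitSet g K A).filter fun t => ∀ i, κ * max 1 ((T : ℝ) / K) ≤ almostPrimesIn (g ^ K) r (N + t + s i * T) T).card : ℝ)) := by
  classical
  obtain ⟨δ, hδ, r0, hr0, H⟩ := jointMoments (by omega : 0 < l) (fun _ => 1) (fun _ => le_rfl) (∑ i, s i) k hk E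
  simp only [one_mul] at H
  refine ⟨δ, hδ, r0, hr0, fun r hr g hg => ?_⟩
  obtain ⟨κ, C, T₀, hκ, hC, H⟩ := H r hr g hg
  refine ⟨κ, C, T₀, hκ, hC, ?_⟩
  filter_upwards [H] with K HK
  intro N T hN hT1 hT A hA1 hA2
  obtain ⟨h1, h2, h3⟩ := HK N T hN hT1 hT (fun i => s i * T) (fun i => by
      have h4 := single_le_sum (f := s) (fun _ _ => Nat.zero_le _) (mem_univ i)
      exact Nat.mul_le_mul_right T h4) (fun i j hij _ => by
      rcases lt_trichotomy (s i) (s j) with h5 | h5 | h5
      · left
        calc s i * T + T = (s i + 1) * T := by ring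
          _ ≤ s j * T := Nat.mul_le_mul_right T h5
      · exact absurd (hinj h5) hij
      · right
        calc s j * T + T = (s j + 1) * T := by ring
          _ ≤ s i * T := Nat.mul_le_mul_right T h5) A ⟨hA1, hA2⟩
  have e1 : ∀ x, primesIn x T = numIn Nat.Prime x T := by
    intro x
    unfold primesIn numIn
    congr!
  have e2 : ∀ x, almostPrimesIn (g ^ K) r x T = numIn (AlmostPrime (g ^ K) r) x T := by
    intro x
    unfold almostPrimesIn numIn
    congr!
  simp only [e1, e2]
  refine ⟨h1, h2, fun hgT => ⟨(h3 hgT).1, (h3 hgT).2.trans (le_of_eq ?_)⟩⟩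
  unfold count digitSet
  rw [filter_filter]
  congr!

end Pool.Agent.Results.MP_ff81b6_nt.DisjointWindows
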