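import Mathlib
import Pool.Agent.Q46.CM.LLN2
import Pool.Agent.Q46.CM.Exist

/-!
# How often is `(q' - q) / (log q)² > 1` in the random models? A strong law of large numbers for long gaps

Sieved random model (Cramér, Granville): in the dyadic block `[2 ^ j, 2 ^ (j + 1))` remove the integers with a prime
factor `≤ z j`, and keep the other integers `n` independently, each with probability `min 1 (1 / (V (z j) log n))`,
`V z = ∏_{p ≤ z} (1 - 1/p)`. (`z j = 1` is Cramér's own model, in which `L = 1` almost surely.) For consecutive kept
integers `q < q'` let `g(q) = q' - q - 1`. We show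

* a strong law of large numbers, for every level `z` and EVERY threshold function `F`: if the series of the
  probabilities `P(n is kept, n + 1, ..., n + ⌈F(n)⌉ are not)` diverges, then almost surely the number of kept `q < N`
  with `g(q) ≥ F(q)`, divided by the partial sum of this series over `n < N`, tends to `1`;
* in Cramér's model, almost surely the number of kept `q < N` with `g(q) ≥ (log q)²` is asymptotically
  `exp (-1/2) * log log N`.

So in Cramér's model the ratio `(q' - q) / (log q)²` in the definition of `L` exceeds its upper limit `1` infinitely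
often, and the number of times is known with its constant; it is not `log log N` but `log log N / √e`.

The events `n kept, next gap long` are pairwise nonpositively correlated for any thresholds; the proof is the second
moment method for them along a subsequence, together with the asymptotics of the probabilities.
-/

set_option autoImplicit false

namespace Pool.Agent.Results.MP_ff81b6_nt.ExceptionsInRandomModels

open Filter Topology MeasureTheory ProbabilityTheory Pool.Agent.H318R2.Cr Pool.Agent.Q46.CM

universe u

/-- (0) The sieved model exists for every `z`. (1) Strong law of large numbers for the number of `q < N` with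
`g(q) ≥ F(q)`, for all levels `z` and all `F` for which the series diverges. (2) In Cramér's model the number of
`q < N` with `g(q) ≥ (log q)²` is `~ exp (-1/2) log log N` almost surely. -/
theorem result :
    (∀ z : ℕ → ℕ, ∃ (μ : Measure (ℕ → Bool)) (A : ℕ → Set (ℕ → Bool)), IsSievedModel μ z A) ∧
    (∀ (z : ℕ → ℕ) (F : ℕ → ℝ) (Ω : Type u) [MeasurableSpace Ω] (μ : Measure Ω) (A : ℕ → Set Ω),
      IsSievedModel μ z A →
        (¬ Summable fun n => keepProb z n * ∏ m ∈ Finset.Ioc n (n + ⌈F n⌉₊), (1 - keepProb z m)) →
          ∀ᵐ ω ∂μ, Tendsto (fun N : ℕ => ({q | q ∈ LongGaps {n | ω ∈ A n} F ∧ q < N}.ncard : ℝ) /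
            ∑ n ∈ Finset.range N, keepProb z n * ∏ m ∈ Finset.Ioc n (n + ⌈F n⌉₊), (1 - keepProb z m))
            atTop (𝓝 1)) ∧
    (∀ (Ω : Type u) [MeasurableSpace Ω] (μ : Measure Ω) (A : ℕ → Set Ω), IsSievedModel μ (fun _ => 1) A →
      ∀ᵐ ω ∂μ, Tendsto (fun N : ℕ =>
        ({q | q ∈ LongGaps {n | ω ∈ A n} (fun q => Real.log q ^ 2) ∧ q < N}.ncard : ℝ) /
          Real.log (Real.log N)) atTop (𝓝 (Real.exp (-(1 / 2))))) :=
  ⟨exists_model, fun _ F _ _ _ _ hA hs => lln hA F hs, fun _ _ _ _ hA => exceptions hA⟩

end Pool.Agent.Results.MP_ff81b6_nt.ExceptionsInRandomModels
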