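import Pool.Agent.Q48.RD.Joint4

/-!
# Patterns of occupied and empty short intervals near several multiples of `x`

Let `g ≥ 2` be a base and `K` a large number of digits. For every `i < K` let `A i` be an arbitrary set of digits, such that the number
`|A 0| ⋯ |A (K - 1)|` of the integers `t < g ^ K` whose `i`-th digit belongs to `A i` for all `i < K` is at least `exp (- δ K) g ^ K`.
Let `N ≤ g ^ (E K)` be arbitrary. We consider the numbers `x = N + t` with these `t`: they form a set with only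
`y ^ (1 - δ')` elements in an interval of length `y = g ^ K`, which may be an arbitrarily small power of `x`.

Let `W_i = (a_i x + b_i, a_i x + b_i + T]`, `i ≤ m`, be short intervals near multiples of `x`, with arbitrary multipliers `a_i ≥ 1` and
arbitrary `b_i ≤ B T`; the intervals with the same multiplier have to be disjoint. For instance there may be many adjacent intervals
near each one of the numbers `x, 2 x, 3 x`. Cramér's model predicts for the primes and for the almost primes that every pattern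
`I` of occupied intervals occurs with the frequency of order `(T / K) ^ |I|`, for `T ≤ κ K`: exactly the intervals `W_i` with `i` in
`I` contain such a number and all the others are empty. In the case of adjacent intervals this prescribes the sizes (up to `T`) of
all the gaps in a short interval, near all the multiples at once. We prove, for all these sets of `x`,

(1) the upper bound of this order for the primes;

(2) the exact order for the almost primes. (A prime larger than `g ^ (K / r)` is one of these almost primes, so the empty intervals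
near the multiples of the `x ≥ g ^ (K / r)` contain no primes either.)
-/

set_option autoImplicit false

namespace Pool.Agent.Results.MP_ff81b6_nt.PatternsOfShortGaps

open Filter Finset
open Pool.Agent.Q315.RD Pool.Agent.Q48.RD

/-- The number of primes `p` with `x < p ≤ x + T`. -/
def primesIn (x T : ℕ) : ℕ := ((Ioc x (x + T)).filter Nat.Prime).card

open Classical in
/-- The number of the integers in `(x, x + T]` with at most `r` prime factors, all larger than `y ^ (1 / r)`. -/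
noncomputable def almostPrimesIn (y r x T : ℕ) : ℕ := ((Ioc x (x + T)).filter (AlmostPrime y r)).card

open Classical in
/-- The integers `t < g ^ K` whose `i`-th digit belongs to `A i` for all `i < K`. -/
noncomputable def digitSet (g K : ℕ) (A : ℕ → Finset ℕ) : Finset ℕ := (range (g ^ K)).filter (HasDigits g K A)

/-- from the first moment to the number of `t` for which all the numbers are positive -/
lemma occupied_le {l : ℕ} (S : Finset ℕ) (X : Fin l → ℕ → ℕ) :
    (((S.filter fun t => ∀ i, 0 < X i t).card : ℝ)) ≤ ∑ t ∈ S, ∏ i, (X i t : ℝ) ^ 1 := by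
  classical
  rw [card_eq_sum_ones, Nat.cast_sum, sum_filter]
  apply sum_le_sum
  intro t _
  split_ifs with h
  · rw [Nat.cast_one]
    calc (1 : ℝ) = ∏ _i : Fin l, (1 : ℝ) := by rw [prod_const_one]
      _ ≤ ∏ i, (X i t : ℝ) ^ 1 := Finset.prod_le_prod (fun i _ => zero_le_one) fun i _ => by
          rw [pow_one]
          exact_mod_cast h i
  · exact prod_nonneg fun i _ => by positivity

/-- `jointMoments` for the intervals of a nonempty set `I` of indices, `T ≤ K` -/
lemma onSet {m : ℕ} (a : Fin m → ℕ) (ha : ∀ i, 1 ≤ a i) (B₀ : ℕ) (I : Finset (Fin m)) (hI : I.Nonempty) (E : ℕ) :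
    ∃ δ : ℝ, 0 < δ ∧ ∃ r₀ : ℕ, 2 ≤ r₀ ∧ ∀ r : ℕ, r₀ ≤ r → ∀ g : ℕ, 2 ≤ g → ∃ κ C : ℝ, ∃ T₀ : ℕ, 0 < κ ∧ 0 < C ∧
      ∀ᶠ K : ℕ in atTop, ∀ N T : ℕ, N ≤ g ^ (E * K) → 1 ≤ T → T ≤ K → T ≤ g ^ (E * K) → ∀ b : Fin m → ℕ, (∀ i, b i ≤ B₀ * T) →
        (∀ i j, i ≠ j → a i = a j → b i + T ≤ b j ∨ b j + T ≤ b i) → ∀ A : ℕ → Finset ℕ, Rich δ g K A →
        (((digitSet g K A).filter fun t => ∀ i ∈ I, 0 < primesIn (a i * (N + t) + b i) T).card : ℝ) ≤
          C * ((T : ℝ) / K) ^ I.card * choices K A ∧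
        (((digitSet g K A).filter fun t => ∀ i ∈ I, 0 < almostPrimesIn (g ^ K) r (a i * (N + t) + b i) T).card : ℝ) ≤
          C * ((T : ℝ) / K) ^ I.card * choices K A ∧
        (T₀ ≤ T → κ * ((T : ℝ) / K) ^ I.card * choices K A ≤
          (((digitSet g K A).filter fun t => ∀ i ∈ I, 0 < almostPrimesIn (g ^ K) r (a i * (N + t) + b i) T).card : ℝ)) := by
  classical
  obtain ⟨e, he⟩ : ∃ e : Fin I.card → Fin m, e = fun i => I.orderEmbOfFin rfl i := ⟨_, rfl⟩
  have heI : ∀ i, e i ∈ I := fun i => by rw [he]; exact I.orderEmbOfFin_mem rfl i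
  have hinj : Function.Injective e := by rw [he]; exact (I.orderEmbOfFin rfl).injective
  have hsurj : ∀ i ∈ I, ∃ j, e j = i := by
    intro i hi
    have h1 : i ∈ Set.range (I.orderEmbOfFin rfl) := by
      rw [I.range_orderEmbOfFin rfl]
      exact hi
    obtain ⟨j, hj⟩ := h1
    exact ⟨j, by rw [he]; exact hj⟩
  obtain ⟨δ, hδ, r0, hr0, H⟩ := jointMoments (card_pos.2 hI) (fun i => a (e i)) (fun i => ha (e i)) B₀ 1 le_rfl E
  refine ⟨δ, hδ, r0, hr0, fun r hr g hg => ?_⟩
  obtain ⟨κ, C, T₀, hκ, hC, H⟩ := H r hr g hg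
  refine ⟨κ, C, T₀, hκ, hC, ?_⟩
  filter_upwards [H, eventually_ge_atTop 1] with K HK hK1
  intro N T hN hT1 hTK hT b hb hsep A hA
  obtain ⟨h1, h2, h3⟩ := HK N T hN hT1 hT (fun i => b (e i)) (fun i => hb (e i))
    (fun i j hij h => hsep (e i) (e j) (fun h4 => hij (hinj h4)) h) A hA
  have hKr : (0 : ℝ) < K := by exact_mod_cast (by omega : 0 < K)
  have hu : (T : ℝ) / K ≤ 1 := by
    rw [div_le_one hKr]
    exact_mod_cast hTK
  have hcs : (0 : ℝ) ≤ choices K A := Nat.cast_nonneg _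
  rw [min_eq_right hu, max_eq_left hu, pow_one, mul_one] at h1 h2 h3
  have e1 : ∀ x, primesIn x T = numIn Nat.Prime x T := by
    intro x
    unfold primesIn numIn
    congr!
  have e2 : ∀ x, almostPrimesIn (g ^ K) r x T = numIn (AlmostPrime (g ^ K) r) x T := by
    intro x
    unfold almostPrimesIn numIn
    congr!
  have eD : digitSet g K A = Pool.Agent.Q48.RD.digitSet g K A := by
    unfold digitSet Pool.Agent.Q48.RD.digitSet
    congr!
  simp only [e1, e2, eD]
  refine ⟨?_, ?_, fun hgT => ?_⟩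
  · refine le_trans ?_ h1
    refine le_trans (Nat.cast_le.2 (card_le_card ?_)) (occupied_le (Pool.Agent.Q48.RD.digitSet g K A)
      (fun i t => numIn Nat.Prime (a (e i) * (N + t) + b (e i)) T))
    intro t ht
    rw [mem_filter] at ht ⊢
    exact ⟨ht.1, fun i => ht.2 _ (heI i)⟩
  · refine le_trans ?_ h2
    refine le_trans (Nat.cast_le.2 (card_le_card ?_)) (occupied_le (Pool.Agent.Q48.RD.digitSet g K A)
      (fun i t => numIn (AlmostPrime (g ^ K) r) (a (e i) * (N + t) + b (e i)) T))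
    intro t ht
    rw [mem_filter] at ht ⊢
    exact ⟨ht.1, fun i => ht.2 _ (heI i)⟩
  · have hc : count g K A (fun t => ∀ i, κ * 1 ≤ (numIn (AlmostPrime (g ^ K) r) (a (e i) * (N + t) + b (e i)) T : ℝ)) =
        ((Pool.Agent.Q48.RD.digitSet g K A).filter
          fun t => ∀ i, κ * 1 ≤ (numIn (AlmostPrime (g ^ K) r) (a (e i) * (N + t) + b (e i)) T : ℝ)).card := by
      unfold count Pool.Agent.Q48.RD.digitSet
      rw [filter_filter]
      congr!
    refine (h3 hgT).2.trans ?_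
    rw [mul_one] at hc ⊢
    rw [hc]
    apply Nat.cast_le.2
    apply card_le_card
    intro t ht
    rw [mem_filter] at ht ⊢
    refine ⟨ht.1, fun i hi => ?_⟩
    obtain ⟨j, hj⟩ := hsurj i hi
    have h4 := ht.2 j
    rw [hj] at h4
    have h5 : (0 : ℝ) < (numIn (AlmostPrime (g ^ K) r) (a i * (N + t) + b i) T : ℝ) := lt_of_lt_of_le hκ h4
    exact_mod_cast h5

/-- **Every pattern of occupied and empty short intervals has the expected frequency.** -/
theorem result {m : ℕ} (a : Fin m → ℕ) (ha : ∀ i, 1 ≤ a i) (B : ℕ) (I : Finset (Fin m)) (hI : I.Nonempty) (E : ℕ) :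
    ∃ δ : ℝ, 0 < δ ∧ ∃ r₀ : ℕ, 2 ≤ r₀ ∧ ∀ r : ℕ, r₀ ≤ r → ∀ g : ℕ, 2 ≤ g → ∃ κ C : ℝ, ∃ T₀ : ℕ, 0 < κ ∧ 0 < C ∧
      ∀ᶠ K : ℕ in atTop, ∀ N T : ℕ, N ≤ g ^ (E * K) → 1 ≤ T → (T : ℝ) ≤ κ * K →
        -- the intervals `(a_i x + b_i, a_i x + b_i + T]`; those with the same multiplier are disjoint
        ∀ b : Fin m → ℕ, (∀ i, b i ≤ B * T) → (∀ i j, i ≠ j → a i = a j → b i + T ≤ b j ∨ b j + T ≤ b i) →
        ∀ A : ℕ → Finset ℕ, (∀ i < K, A i ⊆ range g) → (g : ℝ) ^ K ≤ Real.exp (δ * K) * choices K A →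
        -- the primes
        (((digitSet g K A).filter fun t => ∀ i ∈ I, 0 < primesIn (a i * (N + t) + b i) T).card : ℝ) ≤
          C * ((T : ℝ) / K) ^ I.card * choices K A ∧
        -- the almost primes
        (((digitSet g K A).filter fun t => ∀ i, 0 < almostPrimesIn (g ^ K) r (a i * (N + t) + b i) T ↔ i ∈ I).card : ℝ) ≤
          C * ((T : ℝ) / K) ^ I.card * choices K A ∧
        (T₀ ≤ T → κ * ((T : ℝ) / K) ^ I.card * choices K A ≤
          (((digitSet g K A).filter fun t => ∀ i, 0 < almostPrimesIn (g ^ K) r (a i * (N + t) + b i) T ↔ i ∈ I).card : ℝ)) := by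
  classical
  obtain ⟨δ1, hδ1, r1, hr1, H1⟩ := onSet a ha B I hI (E + 1)
  have H2 := fun j : Fin m => onSet a ha B (insert j I) (insert_nonempty j I) (E + 1)
  choose δ2 hδ2 r2 hr2 H2 using H2
  have : Nonempty (Fin m) := ⟨hI.choose⟩
  obtain ⟨δ3, hδ3⟩ : ∃ δ3 : ℝ, δ3 = univ.inf' univ_nonempty δ2 := ⟨_, rfl⟩
  have hδ3pos : 0 < δ3 := by
    rw [hδ3, Finset.lt_inf'_iff]
    exact fun p _ => hδ2 p
  have hδ3le : ∀ p, δ3 ≤ δ2 p := fun p => by rw [hδ3]; exact Finset.inf'_le _ (mem_univ p)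
  obtain ⟨r3, hr3⟩ : ∃ r3 : ℕ, r3 = univ.sup r2 := ⟨_, rfl⟩
  have hr3le : ∀ p, r2 p ≤ r3 := fun p => by rw [hr3]; exact Finset.le_sup (mem_univ p)
  refine ⟨min δ1 δ3, lt_min hδ1 hδ3pos, max r1 r3, by omega, fun r hr g hg => ?_⟩
  obtain ⟨κ1, C1, T1, hκ1, hC1, H1⟩ := H1 r (by omega) g hg
  have H2 := fun j => H2 j r ((hr3le j).trans (by omega)) g hg
  choose κ2 C2 T2 hκ2 hC2 H2 using H2
  obtain ⟨Ct, hCt⟩ : ∃ Ct : ℝ, Ct = ∑ j, C2 j := ⟨_, rfl⟩
  have hCt0 : 0 < Ct := by rw [hCt]; exact sum_pos (fun j _ => hC2 j) univ_nonempty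
  obtain ⟨κ, hκd⟩ : ∃ κ : ℝ, κ = min (min 1 (κ1 / 2)) (κ1 / (2 * Ct)) := ⟨_, rfl⟩
  have hκ : 0 < κ := by rw [hκd]; positivity
  have hκa : κ ≤ 1 := by rw [hκd]; exact (min_le_left _ _).trans (min_le_left _ _)
  have hκb : κ ≤ κ1 / 2 := by rw [hκd]; exact (min_le_left _ _).trans (min_le_right _ _)
  have hκc : κ ≤ κ1 / (2 * Ct) := by rw [hκd]; exact min_le_right _ _
  refine ⟨κ, C1, T1, hκ, hC1, ?_⟩
  filter_upwards [H1, eventually_all.2 H2, eventually_ge_atTop 1] with K K1 K2 hK1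
  intro N T hN hT1 hTK b hb hsep A hA1 hA2
  have hKr : (0 : ℝ) < K := by exact_mod_cast (by omega : 0 < K)
  have hTr : (0 : ℝ) < T := by exact_mod_cast (by omega : 0 < T)
  have hg1 : 1 ≤ g := by omega
  have hTK' : T ≤ K := by
    have : (T : ℝ) ≤ K := hTK.trans (by nlinarith)
    exact_mod_cast this
  have hle : g ^ (E * K) ≤ g ^ ((E + 1) * K) := Nat.pow_le_pow_right hg1 (by nlinarith)
  have hT : T ≤ g ^ ((E + 1) * K) := by
    calc T ≤ K := hTK'
      _ ≤ g ^ K := (Nat.lt_pow_self (by omega)).le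
      _ ≤ _ := Nat.pow_le_pow_right hg1 (by nlinarith)
  have hcs : (0 : ℝ) ≤ choices K A := Nat.cast_nonneg _
  have hrich : ∀ c' : ℝ, min δ1 δ3 ≤ c' → Rich c' g K A := fun c' hc' => ⟨hA1, hA2.trans (by gcongr)⟩
  obtain ⟨h1, h2, h3⟩ := K1 N T (hN.trans hle) hT1 hTK' hT b hb hsep A (hrich δ1 (min_le_left _ _))
  obtain ⟨S, hS⟩ : ∃ S : Finset ℕ, S = digitSet g K A := ⟨_, rfl⟩
  obtain ⟨R, hR⟩ : ∃ R : Fin m → ℕ → ℕ, R = fun i t => almostPrimesIn (g ^ K) r (a i * (N + t) + b i) T := ⟨_, rfl⟩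
  have eR : ∀ i t, almostPrimesIn (g ^ K) r (a i * (N + t) + b i) T = R i t := by
    intro i t
    rw [hR]
  rw [← hS] at h1 h2 h3 ⊢
  simp only [eR] at h2 h3 ⊢
  refine ⟨h1, ?_, fun hgT => ?_⟩
  · refine le_trans (Nat.cast_le.2 (card_le_card ?_)) h2
    intro t ht
    rw [mem_filter] at ht ⊢
    exact ⟨ht.1, fun i hi => (ht.2 i).2 hi⟩
  · have h4 := h3 hgT
    obtain ⟨u, hu⟩ : ∃ u : ℝ, u = (T : ℝ) / K := ⟨_, rfl⟩
    have hu0 : 0 < u := by rw [hu]; positivity
    have huκ : u ≤ κ := by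
      rw [hu, div_le_iff₀ hKr]
      exact hTK
    -- the other intervals
    have h5 : ∀ j, j ∉ I → (((S.filter fun t => ∀ i ∈ insert j I, 0 < R i t).card : ℝ)) ≤ C2 j * u ^ (I.card + 1) * choices K A := by
      intro j hj
      obtain ⟨_, h6, _⟩ := K2 j N T (hN.trans hle) hT1 hTK' hT b hb hsep A
        (hrich (δ2 j) ((min_le_right _ _).trans (hδ3le j)))
      rw [← hS, card_insert_of_notMem hj, ← hu] at h6
      simp only [eR] at h6
      exact h6
    obtain ⟨G, hG⟩ : ∃ G : Finset ℕ, G = S.filter fun t => ∀ i ∈ I, 0 < R i t := ⟨_, rfl⟩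
    obtain ⟨Bd, hBd⟩ : ∃ Bd : Fin m → Finset ℕ, Bd = fun j => if j ∈ I then ∅ else S.filter fun t => ∀ i ∈ insert j I, 0 < R i t := ⟨_, rfl⟩
    have hBc : ∀ j, ((Bd j).card : ℝ) ≤ C2 j * u ^ (I.card + 1) * choices K A := by
      intro j
      rw [hBd]
      dsimp only
      split_ifs with hj
      · rw [card_empty, Nat.cast_zero]
        have := hC2 j
        positivity
      · exact h5 j hj
    have hBs : ((univ.biUnion Bd).card : ℝ) ≤ κ1 / 2 * u ^ I.card * choices K A := by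
      calc ((univ.biUnion Bd).card : ℝ) ≤ ∑ j, ((Bd j).card : ℝ) := by exact_mod_cast card_biUnion_le
        _ ≤ ∑ j, C2 j * u ^ (I.card + 1) * choices K A := sum_le_sum fun j _ => hBc j
        _ = (Ct * u) * u ^ I.card * choices K A := by rw [← sum_mul, ← sum_mul, ← hCt, pow_succ]; ring
        _ ≤ (κ1 / 2) * u ^ I.card * choices K A := by
            have h7 : Ct * u ≤ κ1 / 2 := by
              calc Ct * u ≤ Ct * (κ1 / (2 * Ct)) := by
                    apply mul_le_mul_of_nonneg_left (huκ.trans hκc) hCt0.le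
                _ = κ1 / 2 := by field_simp
            gcongr
    have hsub : G \ univ.biUnion Bd ⊆ S.filter fun t => ∀ i, 0 < R i t ↔ i ∈ I := by
      intro t ht
      rw [Finset.mem_sdiff, hG, mem_filter] at ht
      refine mem_filter.2 ⟨ht.1.1, fun i => ⟨fun hi => ?_, fun hi => ht.1.2 i hi⟩⟩
      by_contra hcon
      apply ht.2
      rw [mem_biUnion]
      refine ⟨i, mem_univ i, ?_⟩
      rw [hBd]
      dsimp only
      rw [if_neg hcon, mem_filter]
      refine ⟨ht.1.1, fun j hj => ?_⟩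
      rw [mem_insert] at hj
      rcases hj with rfl | hj
      · exact hi
      · exact ht.1.2 j hj
    have h6 : (G.card : ℝ) ≤ ((G \ univ.biUnion Bd).card : ℝ) + ((univ.biUnion Bd).card : ℝ) := by
      have := card_le_card_sdiff_add_card (s := G) (t := univ.biUnion Bd)
      exact_mod_cast this
    have h7 : ((G \ univ.biUnion Bd).card : ℝ) ≤ ((S.filter fun t => ∀ i, 0 < R i t ↔ i ∈ I).card : ℝ) :=
      Nat.cast_le.2 (card_le_card hsub)
    rw [← hG, ← hu] at h4
    rw [← hu]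
    have h8 : κ * u ^ I.card * choices K A ≤ κ1 / 2 * u ^ I.card * choices K A := by gcongr
    linarith

end Pool.Agent.Results.MP_ff81b6_nt.PatternsOfShortGaps
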