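import Mathlib
import Pool.Agent.Q46.CM.Final
import Pool.Agent.Q46.CM.Exist

/-!
# The random model which takes small primes into account: the Cramér constant as a function of the sieve level

The refinement of Cramér's model: in the dyadic block `[2 ^ j, 2 ^ (j + 1))` remove the integers with a prime factor
`≤ z j`, and keep the other integers `n` independently, each with probability `min 1 (1 / (V (z j) log n))`,
`V z = ∏_{p ≤ z} (1 - 1/p)`, so that the density near `n` is `1 / log n` as for the primes. Let
`L = limsup (q_(k+1) - q_k) / (log q_k)²` for the elements `q_k` of the random set. We show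

* if `z j = j ^ o(1)` (and `z j → ∞`), that is, if the sieve level is `(log n) ^ o(1)`, then `L = 1` almost surely,
  Cramér's constant;
* if `z j ≥ j ^ α` for some fixed `α > 0`, that is, if the sieve level is at least a fixed power of `log n`
  (and `z j = o(j)`), then `L ≥ L(α)` almost surely with a constant `L(α) > 1`;
* in all cases with `2 ≤ z j = o(j)`, `L ≥ 1` almost surely.

So the conclusion `L > 1` from divisibility by small primes begins exactly at the powers of `log n`.

Ingredients: for the first part the fundamental lemma of the sieve (`Pool.Agent.H373R2.T7.Fund`), for the second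
intervals of length `z ^ U` which contain at most `1 - δ` times the expected number of integers free of prime
factors `≤ z`, for every `U` (`Pool.Agent.H318R2.Cr.lowInt`, starting files); for the models the Borel-Cantelli lemma
in both directions (`Pool.Agent.Q46.CM`).
-/

set_option autoImplicit false

namespace Pool.Agent.Results.MP_ff81b6_nt.SievedRandomModel

open Filter Topology MeasureTheory ProbabilityTheory Pool.Agent.H318R2.Cr

universe u

/-- (0) The sieved model exists for every `z`. (1) If `z j → ∞` and `log (z j) / log j → 0`, then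
`limsup (q_(k+1) - q_k) / (log q_k)² = 1` almost surely. (2) For every `α > 0` there is `L > 1` such that if
`z j ≥ j ^ α` for all large `j` and `z j / j → 0`, the upper limit is at least `L` almost surely. (3) If
`z j ≥ 2` for all large `j` and `z j / j → 0`, the upper limit is at least `1` almost surely. -/
theorem result :
    (∀ z : ℕ → ℕ, ∃ (μ : Measure (ℕ → Bool)) (A : ℕ → Set (ℕ → Bool)), IsSievedModel μ z A) ∧
    (∀ z : ℕ → ℕ, Tendsto z atTop atTop →
      Tendsto (fun j : ℕ => Real.log (z j) / Real.log j) atTop (𝓝 0) →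
      ∀ (Ω : Type u) [MeasurableSpace Ω] (μ : Measure Ω) (A : ℕ → Set Ω), IsSievedModel μ z A →
        ∀ᵐ ω ∂μ, cramerLimsup {n | ω ∈ A n} = 1) ∧
    (∀ α : ℝ, 0 < α → ∃ L : ℝ, 1 < L ∧ ∀ z : ℕ → ℕ, (∀ᶠ j : ℕ in atTop, (j : ℝ) ^ α ≤ z j) →
      Tendsto (fun j : ℕ => (z j : ℝ) / j) atTop (𝓝 0) →
      ∀ (Ω : Type u) [MeasurableSpace Ω] (μ : Measure Ω) (A : ℕ → Set Ω), IsSievedModel μ z A →
        ∀ᵐ ω ∂μ, (L : EReal) ≤ cramerLimsup {n | ω ∈ A n}) ∧
    (∀ z : ℕ → ℕ, (∀ᶠ j : ℕ in atTop, 2 ≤ z j) → Tendsto (fun j : ℕ => (z j : ℝ) / j) atTop (𝓝 0) →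
      ∀ (Ω : Type u) [MeasurableSpace Ω] (μ : Measure Ω) (A : ℕ → Set Ω), IsSievedModel μ z A →
        ∀ᵐ ω ∂μ, 1 ≤ cramerLimsup {n | ω ∈ A n}) :=
  ⟨Pool.Agent.Q46.CM.exists_model,
    fun _ h1 h2 _ _ _ _ hA => Pool.Agent.Q46.CM.exactly_one hA h1 h2,
    fun α hα => Pool.Agent.Q46.CM.above_one α hα,
    fun _ h1 h2 _ _ _ _ hA => Pool.Agent.Q46.CM.lower_one hA h1 h2⟩

end Pool.Agent.Results.MP_ff81b6_nt.SievedRandomModel
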